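import Mathlib

set_option autoImplicit false

/-!
# MP_5ed545_co: the EJR committees of an interval instance can be disconnected

`n = 18` voters, `m = 17` candidates, committee size `k = 9`.  The ballots are the intervals
`[0,0]` (2 voters), `[0,3]` (1), `[1,6]` (5), `[4,9]` (1), `[7,12]` (1), `[10,15]` (5), `[13,16]` (1),
`[16,16]` (2).
-/

namespace Pool.Agent.Results.MP_5ed545_co.EJRDisconnected

open Finset

/-- The group `S` is `ℓ`-cohesive: `|S| ≥ ℓ n / k` and at least `ℓ` candidates are approved by all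
voters in `S`. -/
def Cohesive {n m : ℕ} (A : Fin n → Finset (Fin m)) (k ℓ : ℕ) (S : Finset (Fin n)) : Prop :=
  ((ℓ : ℚ) * n / k ≤ S.card) ∧ ℓ ≤ (univ.filter fun c => ∀ v ∈ S, c ∈ A v).card

/-- `W` is a committee (a set of `k` candidates) which satisfies extended justified representation:
for every `ℓ ≥ 1`, every `ℓ`-cohesive group has a member who approves at least `ℓ` members of `W`. -/
def IsEJR {n m : ℕ} (A : Fin n → Finset (Fin m)) (k : ℕ) (W : Finset (Fin m)) : Prop :=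
  W.card = k ∧ ∀ ℓ : ℕ, 1 ≤ ℓ → ∀ S : Finset (Fin n), Cohesive A k ℓ S →
    ∃ v ∈ S, ℓ ≤ (A v ∩ W).card

/-- The candidate interval domain: for some linear order of the candidates (`pos c` is the place of
`c` in it) every ballot is a set of consecutive candidates. -/
def IsCI {n m : ℕ} (A : Fin n → Finset (Fin m)) : Prop :=
  ∃ pos : Fin m ≃ Fin m, ∀ v, ∀ a b c, pos a ≤ pos b → pos b ≤ pos c → a ∈ A v → c ∈ A v → b ∈ A v

/-- The voter interval domain: for some linear order of the voters (`pos v` is the place of `v` in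
it) every candidate is approved by a set of consecutive voters. -/
def IsVI {n m : ℕ} (A : Fin n → Finset (Fin m)) : Prop :=
  ∃ pos : Fin n ≃ Fin n, ∀ c, ∀ u v w, pos u ≤ pos v → pos v ≤ pos w → c ∈ A u → c ∈ A w → c ∈ A v

/-- The graph of the EJR committees: two of them are adjacent if they have `k - 1` common members. -/
def ejrGraph {n m : ℕ} (A : Fin n → Finset (Fin m)) (k : ℕ) :
    SimpleGraph {W : Finset (Fin m) // IsEJR A k W} where
  Adj W W' := (W.1 ∩ W'.1).card + 1 = k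
  symm := ⟨fun W W' h => by rwa [inter_comm]⟩
  loopless := ⟨fun W h => by rw [inter_self, W.2.1] at h; omega⟩

/-- left ends of the ballots -/
def lo : Fin 18 → Fin 17 := ![0, 0, 0, 1, 1, 1, 1, 1, 4, 7, 10, 10, 10, 10, 10, 13, 16, 16]

/-- right ends of the ballots -/
def hi : Fin 18 → Fin 17 := ![0, 0, 3, 6, 6, 6, 6, 6, 9, 12, 15, 15, 15, 15, 15, 16, 16, 16]

/-- the ballots -/
def A (v : Fin 18) : Finset (Fin 17) := Icc (lo v) (hi v)

/-- first committee -/
def W₁ : Finset (Fin 17) := {0, 1, 2, 7, 8, 9, 13, 14, 16}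

/-- second committee -/
def W₂ : Finset (Fin 17) := {0, 1, 2, 3, 4, 10, 11, 12, 16}

theorem isCI : IsCI A := by
  refine ⟨Equiv.refl _, fun v a b c h1 h2 ha hc => ?_⟩
  simp only [A, mem_Icc, Equiv.refl_apply] at *
  exact ⟨ha.1.trans h1, h2.trans hc.2⟩

theorem lo_mono : Monotone lo := by
  rw [Monotone]
  decide +kernel

theorem hi_mono : Monotone hi := by
  rw [Monotone]
  decide +kernel

theorem isVI : IsVI A := by
  refine ⟨Equiv.refl _, fun c u v w h1 h2 hu hw => ?_⟩
  simp only [A, mem_Icc, Equiv.refl_apply] at *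
  exact ⟨(lo_mono h2).trans hw.1, hu.2.trans (hi_mono h1)⟩

theorem cohesive_iff {ℓ : ℕ} {S : Finset (Fin 18)} :
    Cohesive A 9 ℓ S ↔ 2 * ℓ ≤ S.card ∧ ℓ ≤ (univ.filter fun c => ∀ v ∈ S, c ∈ A v).card := by
  unfold Cohesive
  have : ((ℓ : ℚ) * (18 : ℕ) / (9 : ℕ) ≤ S.card) ↔ 2 * ℓ ≤ S.card := by
    rw [← Nat.cast_le (α := ℚ)]
    push_cast
    constructor <;> intro h <;> linarith
  rw [this]

/-- at most six voters approve a candidate -/
theorem approve_le : ∀ c : Fin 17, (univ.filter fun v => c ∈ A v).card ≤ 6 := by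
  decide +kernel

theorem isEJR_of {W : Finset (Fin 17)} (h9 : W.card = 9)
    (h : ∀ ℓ ∈ ({1, 2, 3} : Finset ℕ), ∀ c : Fin 17,
      (univ.filter fun v => c ∈ A v ∧ (A v ∩ W).card < ℓ).card < 2 * ℓ) : IsEJR A 9 W := by
  refine ⟨h9, fun ℓ hℓ S hS => ?_⟩
  rw [cohesive_iff] at hS
  obtain ⟨h1, h2⟩ := hS
  obtain ⟨c, hc⟩ : (univ.filter fun c => ∀ v ∈ S, c ∈ A v).Nonempty := by
    rw [← card_pos]
    omega
  simp only [mem_filter, mem_univ, true_and] at hc
  have h3 : S.card ≤ 6 := (card_le_card fun v hv => by simp [hc v hv]).trans (approve_le c)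
  have h4 : ℓ ∈ ({1, 2, 3} : Finset ℕ) := by
    simp only [mem_insert, mem_singleton]
    omega
  by_contra hcon
  push Not at hcon
  have h5 : S ⊆ univ.filter fun v => c ∈ A v ∧ (A v ∩ W).card < ℓ := fun v hv => by
    simp only [mem_filter, mem_univ, true_and]
    exact ⟨hc v hv, hcon v hv⟩
  have := card_le_card h5
  have := h ℓ h4 c
  omega

theorem ejr₁ : IsEJR A 9 W₁ := isEJR_of (by decide) (by decide +kernel)

theorem ejr₂ : IsEJR A 9 W₂ := isEJR_of (by decide) (by decide +kernel)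

/-- the blocks -/
def K (i : Fin 5) : Finset (Fin 17) :=
  ![{1, 2, 3}, {4, 5, 6}, {7, 8, 9}, {10, 11, 12}, {13, 14, 15}] i

/-- the invariant of the component of `W₁` -/
def P (W : Finset (Fin 17)) : Prop :=
  (W ∩ K 0).card = 2 ∧ (W ∩ K 1).card = 0 ∧ (W ∩ K 2).card = 3 ∧ (W ∩ K 3).card = 0 ∧
    (W ∩ K 4).card = 2

/-- a cohesive group given by an explicit set of voters -/
theorem use {W : Finset (Fin 17)} (hW : IsEJR A 9 W) (ℓ : ℕ) (hℓ : 1 ≤ ℓ) (S : Finset (Fin 18))
    (h1 : 2 * ℓ ≤ S.card) (h2 : ℓ ≤ (univ.filter fun c => ∀ v ∈ S, c ∈ A v).card) :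
    ∃ v ∈ S, ℓ ≤ (A v ∩ W).card :=
  hW.2 ℓ hℓ S (cohesive_iff.2 ⟨h1, h2⟩)

theorem card_inter_eq (Z S : Finset (Fin 17)) :
    (Z ∩ S).card = ∑ c ∈ S, if c ∈ Z then 1 else 0 := by
  rw [← card_filter, filter_mem_eq_inter, inter_comm]

/-- the blocks and the two end candidates partition the candidates -/
theorem count (Z : Finset (Fin 17)) :
    (Z ∩ {0}).card + (Z ∩ K 0).card + (Z ∩ K 1).card + (Z ∩ K 2).card + (Z ∩ K 3).card +
      (Z ∩ K 4).card + (Z ∩ {16}).card = Z.card := by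
  have h : Z.card = (Z ∩ univ).card := by simp
  rw [h]
  simp only [card_inter_eq]
  have e : (univ : Finset (Fin 17)) = {0} ∪ K 0 ∪ K 1 ∪ K 2 ∪ K 3 ∪ K 4 ∪ {16} := by decide
  rw [e, sum_union (by decide), sum_union (by decide), sum_union (by decide),
    sum_union (by decide), sum_union (by decide), sum_union (by decide)]

/-- a voter of an explicit group, together with the number of his representatives -/
theorem le_of_use {W : Finset (Fin 17)} {v : Fin 18} {ℓ : ℕ} (h : ℓ ≤ (A v ∩ W).card)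
    (U V : Finset (Fin 17)) (hA : A v ⊆ U ∪ V) : ℓ ≤ (W ∩ U).card + (W ∩ V).card := by
  have h1 : A v ∩ W ⊆ (W ∩ U) ∪ (W ∩ V) := by
    intro c hc
    rw [mem_inter] at hc
    have := hA hc.1
    simp only [mem_union, mem_inter] at this ⊢
    tauto
  exact h.trans ((card_le_card h1).trans (card_union_le _ _))

/-- what EJR says about the numbers of members in the blocks -/
theorem facts {W : Finset (Fin 17)} (hW : IsEJR A 9 W) :
    1 ≤ (W ∩ {0}).card ∧ 1 ≤ (W ∩ {16}).card ∧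
    (3 ≤ (W ∩ {0}).card + (W ∩ K 0).card ∨ 3 ≤ (W ∩ K 0).card + (W ∩ K 1).card) ∧
    (3 ≤ (W ∩ K 0).card + (W ∩ K 1).card ∨ 3 ≤ (W ∩ K 1).card + (W ∩ K 2).card) ∧
    (3 ≤ (W ∩ K 2).card + (W ∩ K 3).card ∨ 3 ≤ (W ∩ K 3).card + (W ∩ K 4).card) ∧
    (3 ≤ (W ∩ K 3).card + (W ∩ K 4).card ∨ 3 ≤ (W ∩ K 4).card + (W ∩ {16}).card) := by
  refine ⟨?_, ?_, ?_, ?_, ?_, ?_⟩
  · obtain ⟨v, hv, h⟩ := use hW 1 le_rfl {0, 1} (by decide) (by decide +kernel)
    have h1 : A v = {0} := by
      simp only [mem_insert, mem_singleton] at hv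
      obtain rfl | rfl := hv <;> decide
    rwa [h1, inter_comm] at h
  · obtain ⟨v, hv, h⟩ := use hW 1 le_rfl {16, 17} (by decide) (by decide +kernel)
    have h1 : A v = {16} := by
      simp only [mem_insert, mem_singleton] at hv
      obtain rfl | rfl := hv <;> decide
    rwa [h1, inter_comm] at h
  · obtain ⟨v, hv, h⟩ := use hW 3 (by norm_num) {2, 3, 4, 5, 6, 7} (by decide) (by decide +kernel)
    have h1 : A v ⊆ {0} ∪ K 0 ∨ A v ⊆ K 0 ∪ K 1 := by
      simp only [mem_insert, mem_singleton] at hv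
      obtain rfl | rfl | rfl | rfl | rfl | rfl := hv <;> decide
    exact h1.imp (le_of_use h _ _) (le_of_use h _ _)
  · obtain ⟨v, hv, h⟩ := use hW 3 (by norm_num) {3, 4, 5, 6, 7, 8} (by decide) (by decide +kernel)
    have h1 : A v ⊆ K 0 ∪ K 1 ∨ A v ⊆ K 1 ∪ K 2 := by
      simp only [mem_insert, mem_singleton] at hv
      obtain rfl | rfl | rfl | rfl | rfl | rfl := hv <;> decide
    exact h1.imp (le_of_use h _ _) (le_of_use h _ _)
  · obtain ⟨v, hv, h⟩ := use hW 3 (by norm_num) {9, 10, 11, 12, 13, 14} (by decide)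
      (by decide +kernel)
    have h1 : A v ⊆ K 2 ∪ K 3 ∨ A v ⊆ K 3 ∪ K 4 := by
      simp only [mem_insert, mem_singleton] at hv
      obtain rfl | rfl | rfl | rfl | rfl | rfl := hv <;> decide
    exact h1.imp (le_of_use h _ _) (le_of_use h _ _)
  · obtain ⟨v, hv, h⟩ := use hW 3 (by norm_num) {10, 11, 12, 13, 14, 15} (by decide)
      (by decide +kernel)
    have h1 : A v ⊆ K 3 ∪ K 4 ∨ A v ⊆ K 4 ∪ {16} := by
      simp only [mem_insert, mem_singleton] at hv
      obtain rfl | rfl | rfl | rfl | rfl | rfl := hv <;> decide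
    exact h1.imp (le_of_use h _ _) (le_of_use h _ _)

/-- the numbers of members in a block before and after a step -/
theorem block (X Y S : Finset (Fin 17)) :
    (Y ∩ S).card + ((X \ Y) ∩ S).card = (X ∩ S).card + ((Y \ X) ∩ S).card := by
  have h1 : ∀ U V : Finset (Fin 17), (U ∩ S).card = (U ∩ V ∩ S).card + ((U \ V) ∩ S).card := by
    intro U V
    rw [← card_union_of_disjoint]
    · congr 1
      ext c
      simp only [mem_union, mem_inter, mem_sdiff]
      tauto
    · rw [disjoint_left]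
      intro c h2 h3
      simp only [mem_inter, mem_sdiff] at h2 h3
      exact h3.1.2 h2.1.2
  have h2 := h1 X Y
  have h3 := h1 Y X
  rw [inter_comm Y X] at h3
  omega

/-- the arithmetic of a step: `a`, `b` are the numbers before and after it, `d` and `e` the numbers
of leaving and of entering members -/
theorem arith {b0 b1 b2 b3 b4 d0 d1 d2 d3 d4 e0 e1 e2 e3 e4 : ℕ}
    (hd : d0 + d1 + d2 + d3 + d4 ≤ 1) (he : e0 + e1 + e2 + e3 + e4 ≤ 1)
    (h0 : b0 + d0 = 2 + e0) (h1 : b1 + d1 = e1) (h2 : b2 + d2 = 3 + e2) (h3 : b3 + d3 = e3)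
    (h4 : b4 + d4 = 2 + e4) (hb : b0 + b1 + b2 + b3 + b4 = 7) (u2 : b2 ≤ 3)
    (g3 : 3 ≤ 1 + b0 ∨ 3 ≤ b0 + b1) (g4 : 3 ≤ b0 + b1 ∨ 3 ≤ b1 + b2)
    (g5 : 3 ≤ b2 + b3 ∨ 3 ≤ b3 + b4) (g6 : 3 ≤ b3 + b4 ∨ 3 ≤ b4 + 1) :
    b0 = 2 ∧ b1 = 0 ∧ b2 = 3 ∧ b3 = 0 ∧ b4 = 2 := by
  have k0 : 2 ≤ b0 := by omega
  have k4 : 2 ≤ b4 := by omega
  have k2 : 3 ≤ b2 := by
    by_contra hc
    omega
  omega

/-- the invariant is kept by every step between EJR committees -/
theorem step {X Y : Finset (Fin 17)} (hX : IsEJR A 9 X) (hY : IsEJR A 9 Y)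
    (hXY : (X ∩ Y).card + 1 = 9) (hP : P X) : P Y := by
  have d : (X \ Y).card = 1 := by
    have := card_sdiff_add_card_inter X Y
    have := hX.1
    omega
  have e : (Y \ X).card = 1 := by
    have := card_sdiff_add_card_inter Y X
    rw [inter_comm] at this
    have := hY.1
    omega
  have d' := count (X \ Y)
  have e' := count (Y \ X)
  have cY := count Y
  rw [hY.1] at cY
  obtain ⟨g1, g2, g3, g4, g5, g6⟩ := facts hY
  obtain ⟨p0, p1, p2, p3, p4⟩ := hP
  have b0 := block X Y (K 0)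
  have b1 := block X Y (K 1)
  have b2 := block X Y (K 2)
  have b3 := block X Y (K 3)
  have b4 := block X Y (K 4)
  have u0 : (Y ∩ {0}).card ≤ 1 := (card_le_card inter_subset_right).trans (by simp)
  have u6 : (Y ∩ {16}).card ≤ 1 := (card_le_card inter_subset_right).trans (by simp)
  have u2 : (Y ∩ K 2).card ≤ 3 := (card_le_card inter_subset_right).trans (by decide)
  have v0 : (Y ∩ {0}).card = 1 := le_antisymm u0 g1
  have v6 : (Y ∩ {16}).card = 1 := le_antisymm u6 g2
  rw [v0, v6] at cY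
  rw [v0] at g3
  rw [v6] at g6
  rw [p0] at b0
  rw [p1, zero_add] at b1
  rw [p2] at b2
  rw [p3, zero_add] at b3
  rw [p4] at b4
  exact arith (by omega) (by omega) b0 b1 b2 b3 b4 (by omega) u2 g3 g4 g5 g6

/-- **An instance of the CI and the VI domain whose set of EJR committees is not connected**: 18
voters, 17 candidates, committee size 9. -/
theorem result : ∃ A : Fin 18 → Finset (Fin 17),
    IsCI A ∧ IsVI A ∧ ¬ (ejrGraph A 9).Preconnected := by
  refine ⟨A, isCI, isVI, fun hcon => ?_⟩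
  have key : ∀ X Y : {W : Finset (Fin 17) // IsEJR A 9 W}, (ejrGraph A 9).Reachable X Y →
      P X.1 → P Y.1 := by
    intro X Y h
    rw [SimpleGraph.reachable_iff_reflTransGen] at h
    induction h with
    | refl => exact id
    | tail _ h ih => exact fun hP => step (Subtype.property _) (Subtype.property _) h (ih hP)
  have h := key ⟨W₁, ejr₁⟩ ⟨W₂, ejr₂⟩ (hcon _ _) (by unfold P; decide)
  exact absurd h (by unfold P; decide)

end Pool.Agent.Results.MP_5ed545_co.EJRDisconnected
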